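import Pool.Agent.H875.HD.Up

set_option autoImplicit false

/-!
# Exponents of zeta and derivatives further to the right: tools
-/

namespace Pool.Agent.H875.TC

open Complex Filter Topology Set Metric
open Pool.Agent.H24R2.JP (XX HH Om)
open Pool.Agent.Hp428.LS (plr' zeta_le ex_conv ex_big)
open Pool.Agent.W186.LH (Ex Ex_of)
open Pool.Agent.W186.SN (plk)

lemma zeta_right2 (s : ℂ) (hs : 2 ≤ s.re) : ‖riemannZeta s‖ ≤ 2 := by
  rw [zeta_eq_tsum_one_div_nat_add_one_cpow (by linarith)]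
  have hterm : ∀ n : ℕ, ‖1 / ((n : ℂ) + 1) ^ s‖ ≤ 1 / ((n : ℝ) + 1) ^ 2 := by
    intro n
    have h1 : ((n : ℂ) + 1) = (((n : ℝ) + 1 : ℝ) : ℂ) := by push_cast; ring
    have h0 : (1 : ℝ) ≤ (n : ℝ) + 1 := by have : (0 : ℝ) ≤ n := Nat.cast_nonneg n; linarith
    rw [norm_div, norm_one, h1, Complex.norm_cpow_eq_rpow_re_of_pos (by positivity)]
    apply one_div_le_one_div_of_le (by positivity)
    rw [← Real.rpow_natCast]
    exact Real.rpow_le_rpow_of_exponent_le h0 (by push_cast; linarith)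
  have hsum := hasSum_zeta_two
  have hs1 : HasSum (fun n : ℕ => 1 / ((n : ℝ) + 1) ^ 2) (Real.pi ^ 2 / 6) := by
    have := (hasSum_nat_add_iff' (f := fun n : ℕ => 1 / (n : ℝ) ^ 2) 1).2 hsum
    simpa using this
  refine (tsum_of_norm_bounded hs1 hterm).trans ?_
  have := Real.pi_lt_d2
  have := Real.pi_pos
  nlinarith

/-- a constant is absorbed by a power -/
lemma absorb (A ε : ℝ) (hε : 0 < ε) : ∃ T0 : ℝ, 1 ≤ T0 ∧ ∀ T : ℝ, T0 ≤ T → A ≤ T ^ ε := by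
  have h := (tendsto_rpow_atTop hε).eventually_ge_atTop A
  obtain ⟨T0, hT0⟩ := eventually_atTop.1 h
  exact ⟨max T0 1, le_max_right _ _, fun T hT => hT0 T ((le_max_left _ _).trans hT)⟩

/-- a logarithm is absorbed by a power -/
lemma absorbL (A B ε : ℝ) (hε : 0 < ε) : ∃ T0 : ℝ, 1 ≤ T0 ∧ ∀ T : ℝ, T0 ≤ T → A * Real.log T + B ≤ T ^ ε := by
  obtain ⟨T0, hT0, h0⟩ := absorb (|A| * (2 / ε) + |B|) (ε / 2) (by linarith)
  refine ⟨T0, hT0, fun T hT => ?_⟩
  have hT1 : 1 ≤ T := hT0.trans hT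
  have hTp : 0 < T := by linarith
  have h1 := h0 T hT
  have h2 : Real.log T ≤ T ^ (ε / 2) / (ε / 2) := Real.log_le_rpow_div hTp.le (by linarith)
  have h3 : 0 ≤ Real.log T := Real.log_nonneg hT1
  have h4 : (1 : ℝ) ≤ T ^ (ε / 2) := Real.one_le_rpow hT1 (by linarith)
  have e : T ^ ε = T ^ (ε / 2) * T ^ (ε / 2) := by rw [← Real.rpow_add hTp]; congr 1; ring
  rw [e]
  calc A * Real.log T + B ≤ |A| * Real.log T + |B| := by
        have := mul_le_mul_of_nonneg_right (le_abs_self A) h3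
        have := le_abs_self B
        linarith
    _ ≤ |A| * (T ^ (ε / 2) / (ε / 2)) + |B| * T ^ (ε / 2) := by
        have := mul_le_mul_of_nonneg_left h2 (abs_nonneg A)
        have := le_mul_of_one_le_right (abs_nonneg B) h4
        linarith
    _ = (|A| * (2 / ε) + |B|) * T ^ (ε / 2) := by field_simp
    _ ≤ _ := mul_le_mul_of_nonneg_right h1 (by positivity)

lemma zeta_right (ε : ℝ) (hε : 0 < ε) : ∃ T0 : ℝ, 1 ≤ T0 ∧ ∀ s : ℂ, 1 ≤ s.re → T0 ≤ s.im →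
    ‖riemannZeta s‖ ≤ s.im ^ ε := by
  obtain ⟨T1, hT1, h1⟩ := HD.gup (b := 1 / 2) (by norm_num) le_rfl (ex_big le_rfl) ε hε
  obtain ⟨T2, hT2, h2⟩ := absorb 2 ε hε
  refine ⟨max T1 T2, le_trans (by linarith) (le_max_left _ _), fun s hs hT => ?_⟩
  have g1 : T1 ≤ s.im := (le_max_left _ _).trans hT
  have g2 : T2 ≤ s.im := (le_max_right _ _).trans hT
  have hp : 0 < s.im := by linarith
  rcases le_or_gt 2 s.re with h3 | h3
  · exact (zeta_right2 s h3).trans (h2 _ g2)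
  · have h4 := h1 s.im g1 (((1 / 2 - s.re : ℝ)) : ℂ) (by
      rw [Complex.norm_real, Real.norm_eq_abs, abs_le]
      constructor <;> linarith)
    rw [Complex.ofReal_re] at h4
    have e1 : HD.P (1 / 2) (1 / 2 - s.re) = 0 := by
      unfold HD.P
      rw [abs_of_nonpos (by linarith), max_eq_left (by linarith)]
      ring
    have e2 : HD.g s.im (((1 / 2 - s.re : ℝ)) : ℂ) = riemannZeta s := by
      unfold HD.g
      congr 1
      apply Complex.ext <;> simp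
    rw [e1, e2, zero_add] at h4
    rwa [Real.rpow_def_of_pos hp]

/-- an exponent holds uniformly to the right -/
lemma ex_sup {σ c : ℝ} (h1 : 1 / 2 ≤ σ) (h2 : σ < 1) (hc : 0 ≤ c) (h : Ex σ c) (ε R : ℝ) (hε : 0 < ε)
    (hR : 0 ≤ R) : ∃ T0 : ℝ, R + 1 ≤ T0 ∧ ∀ T : ℝ, T0 ≤ T → ∀ s : ℂ, σ ≤ s.re → |s.im - T| ≤ R →
      ‖riemannZeta s‖ ≤ T ^ (c + ε) := by
  obtain ⟨C, hC⟩ := h (ε / 2) (by linarith)
  obtain ⟨C', hC'⟩ := plr' σ h1 h2 (c + ε / 2) (by linarith) C hC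
  obtain ⟨T1, hT1, k1⟩ := zeta_right (ε / 2) (by linarith)
  obtain ⟨T2, hT2, k2⟩ := absorb (max C' 1 * 2 ^ (c + ε / 2)) (ε / 2) (by linarith)
  refine ⟨max (R + T1 + 1) T2, le_trans (by linarith) (le_max_left _ _), fun T hT s hs hst => ?_⟩
  have g1 : R + T1 + 1 ≤ T := (le_max_left _ _).trans hT
  have g2 : T2 ≤ T := (le_max_right _ _).trans hT
  have hTp : 0 < T := by linarith
  have h3 := abs_le.1 hst
  have hm1 : T1 ≤ s.im := by linarith
  have hm2 : s.im ≤ 2 * T := by linarith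
  have hm0 : 0 < s.im := by linarith
  have h4 := k2 T g2
  have e1 : T ^ (c + ε) = T ^ (ε / 2) * T ^ (c + ε / 2) := by
    rw [← Real.rpow_add hTp]; congr 1; ring
  have h5 : (2 * T) ^ (c + ε / 2) = 2 ^ (c + ε / 2) * T ^ (c + ε / 2) :=
    Real.mul_rpow (by norm_num) hTp.le
  have h6 : s.im ^ (c + ε / 2) ≤ (2 * T) ^ (c + ε / 2) := Real.rpow_le_rpow hm0.le hm2 (by linarith)
  have key : ‖riemannZeta s‖ ≤ max C' 1 * s.im ^ (c + ε / 2) := by
    rcases le_or_gt s.re 1 with h7 | h7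
    · have h8 := hC' s.re hs h7 s.im (by rw [abs_of_pos hm0]; linarith)
      rw [Complex.re_add_im, abs_of_pos hm0] at h8
      exact h8.trans (mul_le_mul_of_nonneg_right (le_max_left _ _) (by positivity))
    · have h8 := k1 s h7.le hm1
      have h9 : s.im ^ (ε / 2) ≤ s.im ^ (c + ε / 2) :=
        Real.rpow_le_rpow_of_exponent_le (by linarith) (by linarith)
      have h10 : 0 ≤ s.im ^ (c + ε / 2) := by positivity
      calc ‖riemannZeta s‖ ≤ 1 * s.im ^ (c + ε / 2) := by linarith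
        _ ≤ _ := mul_le_mul_of_nonneg_right (le_max_right _ _) h10
  have h11 : 0 < max C' 1 := lt_of_lt_of_le one_pos (le_max_right _ _)
  rw [e1]
  calc ‖riemannZeta s‖ ≤ max C' 1 * s.im ^ (c + ε / 2) := key
    _ ≤ max C' 1 * (2 ^ (c + ε / 2) * T ^ (c + ε / 2)) := by
        rw [← h5]; exact mul_le_mul_of_nonneg_left h6 h11.le
    _ = (max C' 1 * 2 ^ (c + ε / 2)) * T ^ (c + ε / 2) := by ring
    _ ≤ _ := mul_le_mul_of_nonneg_right h4 (by positivity)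

lemma zdiff {s0 : ℂ} {D : ℝ} (h : D < s0.im) : DifferentiableOn ℂ riemannZeta (closedBall s0 D) := by
  intro s hs
  rw [mem_closedBall, dist_eq_norm] at hs
  apply DifferentiableAt.differentiableWithinAt
  apply differentiableAt_riemannZeta
  intro h1
  have h2 := (abs_im_le_norm (s - s0)).trans hs
  rw [h1, sub_im, one_im, zero_sub, abs_neg] at h2
  have := le_abs_self s0.im
  linarith

/-- The bound for the derivatives of order `n ≤ (σ0 - σ) / 2 * log t` at the abscissa `σ0`. -/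
def DB (σ σ0 c : ℝ) : Prop := ∀ ε : ℝ, 0 < ε → ∃ T0 : ℝ, ∀ t : ℝ, T0 ≤ t → ∀ n : ℕ,
  (n : ℝ) ≤ (σ0 - σ) / 2 * Real.log t →
  ‖iteratedDeriv n riemannZeta ((σ0 : ℂ) + t * I)‖ ≤ (n.factorial : ℝ) / (σ0 - σ) ^ n * t ^ (c + ε)

/-- Cauchy's estimate -/
lemma cauchy_all {σ σ0 c : ℝ} (h1 : 1 / 2 ≤ σ) (h2 : σ < 1) (h3 : σ < σ0) (hc : 0 ≤ c) (h : Ex σ c)
    (ε : ℝ) (hε : 0 < ε) : ∃ T0 : ℝ, σ0 - σ + 1 ≤ T0 ∧ ∀ t : ℝ, T0 ≤ t → ∀ n : ℕ,
      ‖iteratedDeriv n riemannZeta ((σ0 : ℂ) + t * I)‖ ≤ (n.factorial : ℝ) / (σ0 - σ) ^ n * t ^ (c + ε) := by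
  obtain ⟨T0, hT0, h0⟩ := ex_sup h1 h2 hc h ε (σ0 - σ) hε (by linarith)
  refine ⟨T0, hT0, fun t ht n => ?_⟩
  have hD : 0 < σ0 - σ := by linarith
  have him : ((σ0 : ℂ) + t * I).im = t := by simp
  have hre : ((σ0 : ℂ) + t * I).re = σ0 := by simp
  have hd := (zdiff (s0 := (σ0 : ℂ) + t * I) (D := σ0 - σ) (by rw [him]; linarith)).diffContOnCl_ball
    (subset_rfl)
  have h4 := Complex.norm_iteratedDeriv_le_of_forall_mem_sphere_norm_le n hD hd (C := t ^ (c + ε)) (by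
    intro z hz
    rw [mem_sphere, dist_eq_norm] at hz
    apply h0 t ht
    · have := (abs_le.1 ((abs_re_le_norm (z - ((σ0 : ℂ) + t * I))).trans hz.le)).1
      rw [sub_re, hre] at this
      linarith
    · have := (abs_im_le_norm (z - ((σ0 : ℂ) + t * I))).trans hz.le
      rwa [sub_im, him] at this)
  refine h4.trans (le_of_eq ?_)
  ring

theorem db_of_ex {σ σ0 c : ℝ} (h1 : 1 / 2 ≤ σ) (h2 : σ < 1) (h3 : σ < σ0) (hc : 0 ≤ c) (h : Ex σ c) :
    DB σ σ0 c := by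
  intro ε hε
  obtain ⟨T0, -, h0⟩ := cauchy_all h1 h2 h3 hc h ε hε
  exact ⟨T0, fun t ht n _ => h0 t ht n⟩

end Pool.Agent.H875.TC
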