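import Pool.Agent.H875.TC.Step

set_option autoImplicit false

/-!
# The derivatives of zeta as Dirichlet series
-/

namespace Pool.Agent.H875.TC

open Complex Filter Topology Set LSeries

lemma logMul_iter (n k : ℕ) : (logMul^[n] (1 : ℕ → ℂ)) k = Complex.log k ^ n := by
  induction n with
  | zero => simp
  | succ n ih =>
    rw [Function.iterate_succ_apply', logMul, ih, pow_succ]
    ring

lemma zeta_iter (n : ℕ) {s : ℂ} (hs : 1 < s.re) :
    iteratedDeriv n riemannZeta s = (-1) ^ n * ∑' m : ℕ, (Real.log ((m : ℝ) + 1) : ℂ) ^ n / ((m : ℂ) + 1) ^ s := by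
  have h1 : riemannZeta =ᶠ[𝓝 s] LSeries 1 := by
    have hopen : IsOpen {z : ℂ | 1 < z.re} := isOpen_lt continuous_const Complex.continuous_re
    filter_upwards [hopen.mem_nhds hs] with z hz
    exact (LSeries_one_eq_riemannZeta hz).symm
  have habs : abscissaOfAbsConv (1 : ℕ → ℂ) < s.re := by
    rw [abscissaOfAbsConv_one]
    exact_mod_cast hs
  rw [Filter.EventuallyEq.iteratedDeriv_eq n h1, LSeries_iteratedDeriv n habs]
  congr 1
  have hsum : LSeriesSummable (logMul^[n] (1 : ℕ → ℂ)) s := by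
    apply LSeriesSummable_of_abscissaOfAbsConv_lt_re
    rw [absicssaOfAbsConv_logPowMul]
    exact habs
  unfold LSeries
  have h2 : Summable (fun k => term (logMul^[n] (1 : ℕ → ℂ)) s k) := hsum
  rw [h2.tsum_eq_zero_add, term_zero, zero_add]
  apply tsum_congr
  intro m
  rw [term_of_ne_zero (Nat.succ_ne_zero m), logMul_iter]
  have e1 : ((m + 1 : ℕ) : ℂ) = (((m : ℝ) + 1 : ℝ) : ℂ) := by push_cast; ring
  have e2 : Complex.log ((m + 1 : ℕ) : ℂ) = (Real.log ((m : ℝ) + 1) : ℂ) := by
    rw [e1, Complex.ofReal_log (by positivity)]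
  rw [e2]
  congr 2
  push_cast
  ring

end Pool.Agent.H875.TC
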