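import Pool.Agent.H875.TC.Base

set_option autoImplicit false

/-!
# The first half of the Taylor coefficients determines the exponent
-/

namespace Pool.Agent.H875.TC

open Complex Filter Topology Set Metric
open Pool.Agent.H24R2.JP (XX HH Om)
open Pool.Agent.Hp428.LS (plr' zeta_le ex_conv ex_big)
open Pool.Agent.W186.LH (Ex Ex_of)
open Pool.Agent.W186.SN (plk)

/-- a series with a good first part and a geometric majorant -/
lemma series {F : ℕ → ℂ} {z : ℂ} (hF : HasSum F z) {q A B : ℝ} (hq0 : 0 < q) (hq1 : q < 1) (hA : 0 ≤ A)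
    (hB : 0 ≤ B) (m : ℕ) (h1 : ∀ n < m, ‖F n‖ ≤ A) (h2 : ∀ n, ‖F n‖ ≤ q ^ n * B) :
    ‖z‖ ≤ m * A + q ^ m * (1 - q)⁻¹ * B := by
  have hs : Summable fun n => q ^ n * B := (summable_geometric_of_lt_one hq0.le hq1).mul_right B
  have hn : Summable fun n => ‖F n‖ := Summable.of_nonneg_of_le (fun _ => norm_nonneg _) h2 hs
  have h3 : ‖z‖ ≤ ∑' n, ‖F n‖ := by
    rw [← hF.tsum_eq]
    exact norm_tsum_le_tsum_norm hn
  refine h3.trans ?_
  rw [← hn.sum_add_tsum_nat_add m]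
  have h4 : ∑ n ∈ Finset.range m, ‖F n‖ ≤ m * A := by
    have := Finset.sum_le_card_nsmul (Finset.range m) (fun n => ‖F n‖) A (fun n hn => h1 n (Finset.mem_range.1 hn))
    rwa [Finset.card_range, nsmul_eq_mul] at this
  have h5 : ∑' n, ‖F (n + m)‖ ≤ ∑' n, q ^ n * (q ^ m * B) := by
    refine Summable.tsum_le_tsum (fun n => ?_) ((summable_nat_add_iff m).2 hn)
      ((summable_geometric_of_lt_one hq0.le hq1).mul_right _)
    refine (h2 (n + m)).trans (le_of_eq ?_)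
    rw [pow_add]; ring
  rw [tsum_mul_right, tsum_geometric_of_lt_one hq0.le hq1] at h5
  calc _ ≤ m * A + (1 - q)⁻¹ * (q ^ m * B) := add_le_add h4 h5
    _ = _ := by ring

/-- towards the critical line -/
lemma step1 {σ σ0 c e h : ℝ} (h1 : 1 / 2 ≤ σ) (h2 : σ < 1) (h3 : σ < σ0) (hc : 0 ≤ c) (he : 0 ≤ e)
    (hh : 0 < h) (hh2 : h < σ0 - σ) (hEx : Ex σ e) (hDB : DB σ σ0 c) :
    Ex (σ + h) (max c (e + (σ0 - σ) / 2 * Real.log (1 - h / (σ0 - σ)))) := by
  obtain ⟨D, hD⟩ : ∃ D, D = σ0 - σ := ⟨_, rfl⟩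
  obtain ⟨q, hq⟩ : ∃ q, q = 1 - h / D := ⟨_, rfl⟩
  obtain ⟨E, hE⟩ : ∃ E, E = max c (e + D / 2 * Real.log q) := ⟨_, rfl⟩
  have hE1 : c ≤ E := by rw [hE]; exact le_max_left _ _
  have hE2 : e + D / 2 * Real.log q ≤ E := by rw [hE]; exact le_max_right _ _
  have hD0 : 0 < D := by rw [hD]; linarith
  have hhD : h / D < 1 := by rw [div_lt_one hD0, hD]; exact hh2
  have hhD0 : 0 < h / D := by positivity
  have hq0 : 0 < q := by rw [hq]; linarith
  have hq1 : q < 1 := by rw [hq]; linarith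
  rw [← hD, ← hq, ← hE]
  refine Ex_of _ _ (hc.trans hE1) fun ε hε => ?_
  obtain ⟨T1, k1⟩ := hDB (ε / 2) (by linarith)
  obtain ⟨T2, hT2, k2⟩ := cauchy_all h1 h2 h3 he hEx (ε / 2) (by linarith)
  obtain ⟨T3, hT3, k3⟩ := absorbL (D / 2) (1 + (1 - q)⁻¹) (ε / 2) (by linarith)
  refine ⟨max T1 (max T2 T3), fun T hT => ?_⟩
  have g1 : T1 ≤ T := (le_max_left _ _).trans hT
  have g2 : T2 ≤ T := ((le_max_left _ _).trans (le_max_right _ _)).trans hT
  have g3 : T3 ≤ T := ((le_max_right _ _).trans (le_max_right _ _)).trans hT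
  have hT1' : 1 ≤ T := hT3.trans g3
  have hTp : 0 < T := by linarith
  have hL0 : 0 ≤ Real.log T := Real.log_nonneg hT1'
  obtain ⟨s0, hs0⟩ : ∃ s0 : ℂ, s0 = (σ0 : ℂ) + T * I := ⟨_, rfl⟩
  have him : s0.im = T := by rw [hs0]; simp
  obtain ⟨z, hz⟩ : ∃ z : ℂ, z = ((σ + h : ℝ) : ℂ) + T * I := ⟨_, rfl⟩
  have hzs : z - s0 = (((-(D - h) : ℝ)) : ℂ) := by
    rw [hz, hs0, hD]; push_cast; ring
  have hDh : 0 < D - h := by rw [hD]; linarith
  have hnz : ‖z - s0‖ = D - h := by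
    rw [hzs, Complex.norm_real, Real.norm_eq_abs, abs_neg, abs_of_pos hDh]
  have hsum := Complex.hasSum_taylorSeries_on_ball (f := riemannZeta) (c := s0) (r := D) (z := z)
    ((zdiff (by rw [him, hD]; linarith)).mono ball_subset_closedBall)
    (by rw [mem_ball, dist_eq_norm, hnz]; linarith)
  obtain ⟨m, hm⟩ : ∃ m : ℕ, m = ⌊D / 2 * Real.log T⌋₊ + 1 := ⟨_, rfl⟩
  have hm0 : 0 ≤ D / 2 * Real.log T := by positivity
  have hm1 : (m : ℝ) ≤ D / 2 * Real.log T + 1 := by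
    rw [hm]; push_cast
    have := Nat.floor_le hm0
    linarith
  have hm2 : D / 2 * Real.log T ≤ m := by
    rw [hm]; push_cast
    exact (Nat.lt_floor_add_one _).le
  have hqD : q = (D - h) / D := by rw [hq]; field_simp
  have hterm : ∀ n : ℕ, ‖((n.factorial : ℂ))⁻¹ • (z - s0) ^ n • iteratedDeriv n riemannZeta s0‖ =
      (D - h) ^ n / n.factorial * ‖iteratedDeriv n riemannZeta s0‖ := by
    intro n
    rw [norm_smul, norm_smul, norm_inv, norm_pow, hnz, Complex.norm_natCast]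
    ring
  have hterm2 : ∀ (n : ℕ) (B : ℝ), ‖iteratedDeriv n riemannZeta s0‖ ≤ (n.factorial : ℝ) / D ^ n * B →
      ‖((n.factorial : ℂ))⁻¹ • (z - s0) ^ n • iteratedDeriv n riemannZeta s0‖ ≤ q ^ n * B := by
    intro n B hB
    rw [hterm, hqD, div_pow]
    have hf : (0 : ℝ) < n.factorial := by exact_mod_cast n.factorial_pos
    have hDn : 0 < D ^ n := by positivity
    have hDhn : 0 < (D - h) ^ n := by positivity
    calc (D - h) ^ n / n.factorial * ‖iteratedDeriv n riemannZeta s0‖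
        ≤ (D - h) ^ n / n.factorial * ((n.factorial : ℝ) / D ^ n * B) :=
          mul_le_mul_of_nonneg_left hB (by positivity)
      _ = _ := by field_simp
  have hfin := series hsum hq0 hq1 (A := T ^ (c + ε / 2)) (B := T ^ (e + ε / 2)) (by positivity)
    (by positivity) m (by
      intro n hn
      have hn1 : (n : ℝ) ≤ D / 2 * Real.log T := by
        have h4 : n ≤ ⌊D / 2 * Real.log T⌋₊ := by omega
        exact (Nat.le_floor_iff hm0).1 h4
      have h5 := k1 T g1 n (by rw [← hD]; exact hn1)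
      rw [← hs0, ← hD] at h5
      refine (hterm2 n _ h5).trans ?_
      exact mul_le_of_le_one_left (by positivity) (pow_le_one₀ hq0.le hq1.le))
    (by
      intro n
      have h5 := k2 T g2 n
      rw [← hs0, ← hD] at h5
      exact hterm2 n _ h5)
  rw [← hz]
  refine hfin.trans ?_
  have hqm : q ^ m ≤ T ^ (D / 2 * Real.log q) := by
    rw [← Real.rpow_natCast, Real.rpow_def_of_pos hq0, Real.rpow_def_of_pos hTp]
    apply Real.exp_le_exp.2
    have hlq : Real.log q < 0 := Real.log_neg hq0 hq1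
    nlinarith
  have hinv : 0 < (1 - q)⁻¹ := inv_pos.2 (by linarith)
  have e1 : T ^ (c + ε / 2) ≤ T ^ (E + ε / 2) := Real.rpow_le_rpow_of_exponent_le hT1' (by linarith)
  have e2 : q ^ m * T ^ (e + ε / 2) ≤ T ^ (E + ε / 2) := by
    calc q ^ m * T ^ (e + ε / 2) ≤ T ^ (D / 2 * Real.log q) * T ^ (e + ε / 2) :=
          mul_le_mul_of_nonneg_right hqm (by positivity)
      _ = T ^ (e + D / 2 * Real.log q + ε / 2) := by rw [← Real.rpow_add hTp]; congr 1; ring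
      _ ≤ _ := Real.rpow_le_rpow_of_exponent_le hT1' (by linarith)
  have hP : 0 ≤ T ^ (E + ε / 2) := by positivity
  calc (m : ℝ) * T ^ (c + ε / 2) + q ^ m * (1 - q)⁻¹ * T ^ (e + ε / 2)
      = (m : ℝ) * T ^ (c + ε / 2) + (1 - q)⁻¹ * (q ^ m * T ^ (e + ε / 2)) := by ring
    _ ≤ (m : ℝ) * T ^ (E + ε / 2) + (1 - q)⁻¹ * T ^ (E + ε / 2) :=
        add_le_add (mul_le_mul_of_nonneg_left e1 (Nat.cast_nonneg _)) (mul_le_mul_of_nonneg_left e2 hinv.le)
    _ = (m + (1 - q)⁻¹) * T ^ (E + ε / 2) := by ring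
    _ ≤ T ^ (ε / 2) * T ^ (E + ε / 2) := by
        apply mul_le_mul_of_nonneg_right _ hP
        have := k3 T g3
        linarith
    _ = T ^ (E + ε) := by rw [← Real.rpow_add hTp]; congr 1; ring

/-- back to the line by convexity and the functional equation -/
lemma step2 {σ h E : ℝ} (h1 : 1 / 2 ≤ σ) (h2 : σ < 1) (hh : 0 < h) (hh2 : h ≤ 1 / 4) (hE : 0 ≤ E)
    (hE2 : E ≤ 1 / 2) (hEx : Ex (σ + h) E) : Ex σ (E + h / 2) := by
  refine Ex_of _ _ (by linarith) fun ε hε => ?_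
  obtain ⟨η, hη⟩ : ∃ η : ℝ, η = min (ε / 4) (1 / 4) := ⟨_, rfl⟩
  have h0 : 0 < η := by rw [hη]; exact lt_min (by linarith) (by norm_num)
  have h3 : η ≤ ε / 4 := by rw [hη]; exact min_le_left _ _
  have h4 : η ≤ 1 / 4 := by rw [hη]; exact min_le_right _ _
  obtain ⟨X, hX⟩ : ∃ X : ℝ, X = σ + h - 1 / 2 := ⟨_, rfl⟩
  obtain ⟨C, hC⟩ := hEx η h0
  obtain ⟨T0, hT0, k0⟩ := plk X (E + η) (max C 1) (by linarith) (by linarith) (by linarith) (by linarith)
    (lt_of_lt_of_le one_pos (le_max_right _ _)) (by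
      intro t ht
      have h5 := hC t (by rw [abs_of_nonneg (by linarith)]; linarith)
      rw [abs_of_nonneg (by linarith : 0 ≤ t)] at h5
      have e : (1 / 2 + (X : ℂ) + t * I) = ((σ + h : ℝ) : ℂ) + t * I := by
        rw [hX]; push_cast; ring
      rw [e]
      refine h5.trans ?_
      exact mul_le_mul_of_nonneg_right (le_max_left _ _) (by positivity)) η h0
  obtain ⟨T1, k1⟩ := zeta_le (b := σ - 1 / 2) (A := X + 2 * (E + η) + η) (by linarith)
    (E + h / 2 + 2 * η) (by rw [hX]; linarith) ⟨T0, fun T hT => by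
    have h6 := k0 T hT ((σ - 1 / 2 : ℝ) : ℂ) (by
      rw [Complex.ofReal_re, abs_of_nonneg (by linarith)]; linarith) (by simp)
    exact h6⟩
  refine ⟨max T1 1, fun t ht => ?_⟩
  have h7 := k1 t ((le_max_left _ _).trans ht)
  have ht1 : 1 ≤ t := (le_max_right _ _).trans ht
  have e : (1 / 2 + (σ - 1 / 2) : ℝ) = σ := by ring
  rw [e] at h7
  refine h7.trans ?_
  exact Real.rpow_le_rpow_of_exponent_le ht1 (by linarith)

/-- the convexity bound -/
lemma ex_start {σ : ℝ} (h1 : 1 / 2 ≤ σ) (h2 : σ < 1) : Ex σ (1 / 4) := by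
  have h3 : Ex (1 / 2) (1 / 4) := by
    have := ex_conv (b := 1 / 2) (by norm_num) le_rfl (ex_big le_rfl)
    norm_num at this ⊢
    exact this
  intro ε hε
  obtain ⟨C, hC⟩ := h3 ε hε
  obtain ⟨C', hC'⟩ := plr' (1 / 2) le_rfl (by norm_num) (1 / 4 + ε) (by linarith) C hC
  exact ⟨C', fun t ht => hC' σ h1 h2.le t ht⟩

/-- the exponent from the derivatives -/
theorem ex_of_db {σ σ0 c : ℝ} (h1 : 1 / 2 ≤ σ) (h2 : σ < 1) (h3 : σ < σ0) (hc : 0 ≤ c) (hDB : DB σ σ0 c) :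
    Ex σ c := by
  obtain ⟨S, hS⟩ : ∃ S : Set ℝ, S = {e : ℝ | 0 ≤ e ∧ Ex σ e} := ⟨_, rfl⟩
  have hS1 : (1 / 4 : ℝ) ∈ S := by rw [hS]; exact ⟨by norm_num, ex_start h1 h2⟩
  have hSb : BddBelow S := ⟨0, fun x hx => by rw [hS] at hx; exact hx.1⟩
  obtain ⟨e0, he0⟩ : ∃ e0 : ℝ, e0 = sInf S := ⟨_, rfl⟩
  have he1 : e0 ≤ 1 / 4 := by rw [he0]; exact csInf_le hSb hS1
  have he2 : 0 ≤ e0 := by rw [he0]; exact le_csInf ⟨_, hS1⟩ fun x hx => by rw [hS] at hx; exact hx.1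
  have hEx : Ex σ e0 := by
    intro ε hε
    obtain ⟨e, heS, he⟩ := exists_lt_of_csInf_lt ⟨_, hS1⟩ (show sInf S < e0 + ε / 2 by rw [← he0]; linarith)
    rw [hS] at heS
    obtain ⟨C, hC⟩ := heS.2 (ε / 2) (by linarith)
    refine ⟨max C 0, fun t ht => ?_⟩
    refine (hC t ht).trans ?_
    have h4 : |t| ^ (e + ε / 2) ≤ |t| ^ (e0 + ε) := Real.rpow_le_rpow_of_exponent_le ht (by linarith)
    have h5 : 0 ≤ |t| ^ (e + ε / 2) := by positivity
    calc C * |t| ^ (e + ε / 2) ≤ max C 0 * |t| ^ (e + ε / 2) := mul_le_mul_of_nonneg_right (le_max_left _ _) h5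
      _ ≤ _ := mul_le_mul_of_nonneg_left h4 (le_max_right _ _)
  rcases le_or_gt e0 c with h4 | h4
  · exact hEx.mono h4
  exfalso
  obtain ⟨h, hh⟩ : ∃ h : ℝ, h = min (e0 - c) (min ((σ0 - σ) / 2) (1 / 4)) := ⟨_, rfl⟩
  have a0 : 0 < h := by
    rw [hh]; exact lt_min (by linarith) (lt_min (by linarith) (by norm_num))
  have a1 : h ≤ e0 - c := by rw [hh]; exact min_le_left _ _
  have a2 : h ≤ (σ0 - σ) / 2 := by rw [hh]; exact (min_le_right _ _).trans (min_le_left _ _)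
  have a3 : h ≤ 1 / 4 := by rw [hh]; exact (min_le_right _ _).trans (min_le_right _ _)
  have hD : 0 < σ0 - σ := by linarith
  have s1 := step1 h1 h2 h3 hc he2 a0 (by linarith) hEx hDB
  obtain ⟨E, hE⟩ : ∃ E, E = max c (e0 + (σ0 - σ) / 2 * Real.log (1 - h / (σ0 - σ))) := ⟨_, rfl⟩
  rw [← hE] at s1
  have hy0 : 0 < h / (σ0 - σ) := by positivity
  have hy1 : h / (σ0 - σ) < 1 := by rw [div_lt_one hD]; linarith
  have hlog : Real.log (1 - h / (σ0 - σ)) < -(h / (σ0 - σ)) := by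
    have := Real.log_lt_sub_one_of_pos (x := 1 - h / (σ0 - σ)) (by linarith) (by linarith)
    linarith
  have hlog2 : (σ0 - σ) / 2 * Real.log (1 - h / (σ0 - σ)) < -(h / 2) := by
    have h5 := mul_lt_mul_of_pos_left hlog (show 0 < (σ0 - σ) / 2 by linarith)
    have h6 : (σ0 - σ) / 2 * -(h / (σ0 - σ)) = -(h / 2) := by field_simp
    linarith
  have hElt : E + h / 2 < e0 := by
    rw [hE]
    have : max c (e0 + (σ0 - σ) / 2 * Real.log (1 - h / (σ0 - σ))) < e0 - h / 2 :=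
      max_lt (by linarith) (by linarith)
    linarith
  have hE0 : 0 ≤ E := by rw [hE]; exact hc.trans (le_max_left _ _)
  have s2 := step2 h1 h2 a0 a3 hE0 (by linarith) s1
  have hmem : E + h / 2 ∈ S := by rw [hS]; exact ⟨by linarith, s2⟩
  have := csInf_le hSb hmem
  rw [← he0] at this
  linarith

theorem main_iff {σ σ0 c : ℝ} (h1 : 1 / 2 ≤ σ) (h2 : σ < 1) (h3 : σ < σ0) (hc : 0 ≤ c) :
    Ex σ c ↔ DB σ σ0 c := ⟨db_of_ex h1 h2 h3 hc, ex_of_db h1 h2 h3 hc⟩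

end Pool.Agent.H875.TC
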